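import Pool.Agent.helper7.ZD.Spec
import Pool.Agent.helper59.FI.Base

/-!
# MP_baa4d7_al, THEOREM ZD, row GKQ
-/

set_option autoImplicit false

namespace Pool.Agent.ND.NY

open Pool.Agent.helper58.DC Pool.Agent.DI Pool.Agent.GR Pool.Agent.OB Pool.Agent.DR Pool.Agent.FI Pool.Agent.FI3 Pool.Agent.FI4 Pool.Agent.FI4I Pool.Agent.LE Pool.Agent.L5 Pool.Agent.NAB
open Pool.Agent.ZB (Pm Om KZ EQ BQ lQ MZc BDK)

theorem GKQ_cj {G : Type} [Group G] (E' : Subgroup G) (l : G) (hl : l ∈ nz E') : cjS l E' = E' := by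
  ext w
  rw [mem_cjS]
  have h1 := Subgroup.mem_normalizer_iff.1 hl (l⁻¹ * w * l)
  have h2 : l * (l⁻¹ * w * l) * l⁻¹ = w := by group
  rw [h2] at h1
  exact h1

theorem GKQ_back {G : Type} [Group G] (E F : Subgroup G) (l : G) (hl : l ∈ nz E) (h : cjS l F = E) : F = E := by
  ext w
  have h1 : l * w * l⁻¹ ∈ cjS l F ↔ w ∈ F := by
    rw [mem_cjS]
    have h2 : l⁻¹ * (l * w * l⁻¹) * l = w := by group
    rw [h2]
  rw [← h1, h]
  exact (Subgroup.mem_normalizer_iff.1 hl w).symm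

theorem GKQ (hEXB : EXB_stmt) (hTRN : TRN_stmt) (hCNTL : CNTL_stmt) (hDEX : DEX_stmt) (hDGL : DGL_stmt)
    (hZUH : Pool.Agent.ZB.ZUH_stmt) (hZE1 : Pool.Agent.ZB.ZE1_stmt) (hZQU : Pool.Agent.ZB.ZQU_stmt) (hSYL : SYL_stmt) : GKQ_stmt := by
  intro p κ M hS G _ _ χ hχ D x hD hKD E' y hy
  have hp : p.Prime := hS.pr
  have : Fact p.Prime := ⟨hp⟩
  have hχ' : χ ∈ IrrOn (⊤ : Subgroup G) := IrrOn_top.2 hχ
  obtain ⟨-, -, -, -, -, -, s7, s8, -⟩ := hSYL p G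
  have hK : Cz (nz E') y ≤ nz E' := inf_le_left
  -- (0)
  have h0 : y ∈ nz E' → ∀ η ∈ IrrOn (Cz (nz E') y), ∀ (Q : Subgroup G) (w : G), DefL p M (Cz (nz E') y) η Q w →
      nz E' ⊓ cz Q ≤ Cz (nz E') y := by
    intro hyN η hη Q w hQ
    have hyK : y ∈ Cz (nz E') y := Subgroup.mem_inf.2 ⟨hyN, Subgroup.mem_centralizer_singleton_iff.2 rfl⟩
    have hKK : Cz (nz E') y ⊓ cz (Subgroup.zpowers y) = Cz (nz E') y := by
      rw [s7]
      unfold Cz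
      rw [inf_assoc, inf_idem]
    have hη' : η ∈ IrrOn (Cz (nz E') y ⊓ cz (Subgroup.zpowers y)) := by rw [hKK]; exact hη
    obtain ⟨k, hk, hk'⟩ := hCNTL p M hS G (Cz (nz E') y) (Subgroup.zpowers y) (s8 y hy) (by rw [Subgroup.zpowers_le]; exact hyK) η hη' η
      (SB.refl _ _) Q w hQ
    have h1 : k * y * k⁻¹ = y := by
      have h2 := Subgroup.mem_centralizer_singleton_iff.1 (Subgroup.mem_inf.1 hk).2
      rw [h2, mul_inv_cancel_right]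
    have h3 : y ∈ Q := by
      have h4 := hk' y (Subgroup.mem_zpowers y)
      rwa [h1] at h4
    intro v hv
    obtain ⟨hv1, hv2⟩ := Subgroup.mem_inf.1 hv
    refine Subgroup.mem_inf.2 ⟨hv1, Subgroup.mem_centralizer_iff.2 ?_⟩
    intro u hu
    rw [Set.mem_singleton_iff] at hu
    rw [hu]
    exact Subgroup.mem_centralizer_iff.1 hv2 y h3
  -- (2)
  have hA : y ∈ nz E' → ∀ η ∈ BQ p κ M (⊤ : Subgroup G) (Cz (nz E') y) E' χ, ∃ φ ∈ BQ p κ M (⊤ : Subgroup G) (nz E') E' χ, SB M (nz E') η φ := by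
    intro hyN η hη
    obtain ⟨hη1, hη2, Q, w, hη3, hη4, hη5⟩ := hη
    have hcz : nz E' ⊓ cz (Subgroup.zpowers y) = Cz (nz E') y := by rw [s7]; rfl
    have hη1' : η ∈ IrrOn (nz E' ⊓ cz (Subgroup.zpowers y)) := by rw [hcz]; exact hη1
    obtain ⟨φ', hφ1, hφ2⟩ := hEXB p M hS G (nz E') (Subgroup.zpowers y) (s8 y hy) (by rw [Subgroup.zpowers_le]; exact hyN) η hη1'
    have hT := hTRN G M (nz E') ⊤ le_top η φ' χ (fun w hw => hη1.1 w (fun h => hw (hK h))) hφ1.1 hφ2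
    have hφ3 : SB M (⊤ : Subgroup G) φ' χ := hT.2.2 hη2
    obtain ⟨Q', w', hQ', -⟩ := hDEX p M hS G (nz E') φ' hφ1
    obtain ⟨θ, hθ1, hθ2⟩ := hDGL p M hS G (Cz (nz E') y) η hη1 Q w hη3
    have hNQ := h0 hyN η hη1 Q w hη3
    have hKQ : Cz (nz E') y ⊓ cz Q = nz E' ⊓ cz Q := by
      apply le_antisymm
      · exact inf_le_inf_right _ hK
      · exact le_inf hNQ inf_le_right
    have hθK : ∀ v, v ∉ Cz (nz E') y → θ v = 0 := fun v hv => hθ1.1 v (fun h => hv (Subgroup.mem_inf.1 h).1)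
    have hθφ : SB M (nz E') θ φ' := (hTRN G M (Cz (nz E') y) (nz E') hK θ η φ' hθK hη1.1 hθ2).2.1 hφ2
    rw [hKQ] at hθ1
    have hQN : Q ≤ nz E' := (hη3.le.trans inf_le_left).trans hK
    obtain ⟨n, hn, hn'⟩ := hCNTL p M hS G (nz E') Q hη3.pg hQN θ hθ1 φ' hθφ Q' w' hQ'
    obtain ⟨-, ⟨-, e2, -⟩, -, -, -, e6, -⟩ := hZE1 p hp κ G Q hη4
    rw [hη5] at e2 e6
    have hEQ' : E' ≤ Q' := by
      intro e he
      have h5 : n⁻¹ * e * n ∈ E' := by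
        have h6 := Subgroup.mem_normalizer_iff.1 hn (n⁻¹ * e * n)
        have h7 : n * (n⁻¹ * e * n) * n⁻¹ = e := by group
        rw [h7] at h6
        exact h6.2 he
      have h8 := hn' _ (e2 h5)
      have h9 : n * (n⁻¹ * e * n) * n⁻¹ = e := by group
      rwa [h9] at h8
    have hczQ' : (⊤ : Subgroup G) ⊓ cz Q' ≤ nz E' := by
      rw [top_inf_eq]
      refine le_trans ?_ e6
      exact Subgroup.centralizer_le hEQ'
    obtain ⟨hKQ', -⟩ := hZUH p κ M hS G ⊤ (nz E') le_top χ hχ' D x hD hKD φ' hφ1 hφ3 Q' w' hQ' hczQ'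
    obtain ⟨-, n', hn1, -, hn2⟩ := hZUH p κ M hS G (nz E') (Cz (nz E') y) hK φ' hφ1 Q' w' hQ' hKQ' η hη1 hφ2 Q w hη3 hNQ
    rw [hη5, GKQ_cj E' n' hn1] at hn2
    exact ⟨φ', ⟨hφ1, hφ3, Q', w', hQ', hKQ', hn2⟩, hφ2⟩
  refine ⟨?_, hA, ?_⟩
  · intro hyN φ hφ
    ext η
    constructor
    · rintro ⟨hη1, hη2⟩
      obtain ⟨hφ1, hφ2, Q₁, y₁, hφ3, hφ4, hφ5⟩ := hφ
      have hT := hTRN G M (nz E') ⊤ le_top η φ χ (fun w hw => hη1.1 w (fun h => hw (hK h))) hφ1.1 hη2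
      obtain ⟨Q, w, hQ, -⟩ := hDEX p M hS G (Cz (nz E') y) η hη1
      obtain ⟨hKQ, l, hl, -, hl'⟩ := hZUH p κ M hS G (nz E') (Cz (nz E') y) hK φ hφ1 Q₁ y₁ hφ3 hφ4 η hη1 hη2 Q w hQ (h0 hyN η hη1 Q w hQ)
      rw [hφ5] at hl'
      exact ⟨hη1, hT.2.1 hφ2, Q, w, hQ, hKQ, GKQ_back E' _ l hl hl'.symm⟩
    · intro hη
      obtain ⟨φ', hφ', h1⟩ := hA hyN η hη
      have hφt : φ ∈ BQ p κ M (⊤ : Subgroup G) (⊤ ⊓ nz E') E' χ := by rw [top_inf_eq]; exact hφ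
      have h2 := (hZQU p κ M hS G ⊤ E' χ hχ' D x hD hKD φ hφt).1
      rw [top_inf_eq] at h2
      rw [h2] at hφ'
      exact ⟨hη.1, h1.trans hφ'.2⟩
  · intro η hη
    obtain ⟨-, -, Q, w, h3, h4, h5⟩ := hη
    obtain ⟨-, ⟨-, e2, -⟩, -, -, -, e6, -⟩ := hZE1 p hp κ G Q h4
    rw [h5] at e2 e6
    have h6 : E' ≤ Cz (⊤ : Subgroup G) y := (e2.trans (h3.le.trans inf_le_left)).trans inf_le_left
    apply e6
    refine Subgroup.mem_centralizer_iff.2 fun v hv => ?_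
    have h7 := (Subgroup.mem_inf.1 (h6 hv)).2
    exact (Subgroup.mem_centralizer_iff.1 h7 y rfl).symm

end Pool.Agent.ND.NY
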