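import Pool.Agent.helper90.ZD.SpecB

/-!
# Project zd: module BT2: the traces
-/

set_option autoImplicit false

open Complex MeasureTheory
open scoped ComplexOrder

namespace Pool.Agent.ZD

open Pool.Agent.helper84.DM Pool.Agent.helper78.ED Pool.Agent.DH

theorem BT2_PL0 (L : ℕ) : PL (IL L) 0 = ((7 * L : ℝ) : ℂ) := by
  unfold PL IL
  have h1 : ∀ l ∈ Finset.Ioc L (8 * L), ((l : ℂ) ^ (-(((0 : ℝ) : ℂ) * I))) = 1 := by
    intro l _
    rw [Complex.ofReal_zero, zero_mul, neg_zero, Complex.cpow_zero]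
  rw [Finset.sum_congr rfl h1, Finset.sum_const, Nat.card_Ioc, nsmul_eq_mul, mul_one]
  have h2 : 8 * L - L = 7 * L := by omega
  rw [h2]
  push_cast
  ring

theorem BT2_diag (W : Finset ℝ) (c : ℝ → ℂ) (L : ℕ) (t : W) :
    GMat W c L t t = ((‖c (t : ℝ)‖ ^ 2 * (7 * L) : ℝ) : ℂ) := by
  unfold GMat
  rw [Matrix.of_apply, sub_self, BT2_PL0, Complex.conj_ofReal, Complex.mul_conj']
  push_cast
  ring

theorem BT2 : BT2_stmt := by
  intro W c X L hc
  have htr : (GMat W c L).trace.re = ∑ t : W, ‖c (t : ℝ)‖ ^ 2 * (7 * (L : ℝ)) := by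
    unfold Matrix.trace
    simp only [Matrix.diag_apply, BT2_diag]
    rw [← Complex.ofReal_sum, Complex.ofReal_re]
  refine ⟨?_, ?_, ?_, ?_⟩
  · unfold Matrix.trace TRC
    simp only [Matrix.diag_apply, Matrix.mul_apply]
    rw [← Finset.sum_coe_sort W]
    refine Finset.sum_congr rfl fun t _ => ?_
    rw [← Finset.sum_coe_sort W]
    refine Finset.sum_congr rfl fun t' _ => ?_
    unfold BMat GMat
    rw [Matrix.of_apply, Matrix.of_apply]
    ring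
  · rw [htr]
    exact Finset.sum_nonneg fun t _ => by positivity
  · rw [htr]
    calc ∑ t : W, ‖c (t : ℝ)‖ ^ 2 * (7 * (L : ℝ)) ≤ ∑ _t : W, 7 * (L : ℝ) := by
          refine Finset.sum_le_sum fun t _ => ?_
          have h1 : ‖c (t : ℝ)‖ ^ 2 ≤ 1 := pow_le_one₀ (norm_nonneg _) (hc _)
          have h2 : (0 : ℝ) ≤ 7 * (L : ℝ) := by positivity
          calc ‖c (t : ℝ)‖ ^ 2 * (7 * (L : ℝ)) ≤ 1 * (7 * (L : ℝ)) :=
                mul_le_mul_of_nonneg_right h1 h2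
            _ = 7 * (L : ℝ) := one_mul _
      _ = 7 * L * (W.card : ℝ) := by
          rw [Finset.sum_const, Finset.card_univ, Fintype.card_coe, nsmul_eq_mul]
          ring
  · have h1 : ∀ t t' : W, ‖GMat W c L t t'‖ ^ 2 ≤ ‖PL (IL L) ((t' : ℝ) - (t : ℝ))‖ ^ 2 := by
      intro t t'
      unfold GMat
      rw [Matrix.of_apply, norm_mul, norm_mul, RCLike.norm_conj, RCLike.norm_conj]
      have h2 : ‖c (t' : ℝ)‖ * ‖c (t : ℝ)‖ ≤ 1 := mul_le_one₀ (hc _) (norm_nonneg _) (hc _)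
      have h3 : ‖c (t' : ℝ)‖ * ‖c (t : ℝ)‖ * ‖PL (IL L) ((t' : ℝ) - (t : ℝ))‖ ≤
          ‖PL (IL L) ((t' : ℝ) - (t : ℝ))‖ := by
        calc ‖c (t' : ℝ)‖ * ‖c (t : ℝ)‖ * ‖PL (IL L) ((t' : ℝ) - (t : ℝ))‖
            ≤ 1 * ‖PL (IL L) ((t' : ℝ) - (t : ℝ))‖ :=
              mul_le_mul_of_nonneg_right h2 (norm_nonneg _)
          _ = ‖PL (IL L) ((t' : ℝ) - (t : ℝ))‖ := one_mul _
      exact pow_le_pow_left₀ (by positivity) h3 2
    calc ∑ t : W, ∑ t' : W, ‖GMat W c L t t'‖ ^ 2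
        ≤ ∑ t : W, ∑ t' : W, ‖PL (IL L) ((t' : ℝ) - (t : ℝ))‖ ^ 2 :=
          Finset.sum_le_sum fun t _ => Finset.sum_le_sum fun t' _ => h1 t t'
      _ = ∑ t' : W, ∑ t : W, ‖PL (IL L) ((t' : ℝ) - (t : ℝ))‖ ^ 2 := Finset.sum_comm
      _ = QW W L := by
          unfold QW
          rw [← Finset.sum_coe_sort W]
          refine Finset.sum_congr rfl fun t' _ => ?_
          rw [← Finset.sum_coe_sort W]

end Pool.Agent.ZD
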