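import Pool.Agent.helper86.ZD.SpecC

/-!
# Project zd: module CMR: exponents
-/

set_option autoImplicit false

open Complex MeasureTheory

namespace Pool.Agent.ZD

open Pool.Agent.helper84.DM Pool.Agent.helper78.ED Pool.Agent.DH

theorem CMR : CMR_stmt := by
  intro T M σ hT h1 h2 hM1 hM2
  have hT0 : 0 < T := by linarith
  have hM0 : 0 < M := lt_of_lt_of_le (Real.rpow_pos_of_pos hT0 _) hM1
  have e1 : M * M ^ (-(2 * σ)) = M ^ (1 - 2 * σ) := by
    have h := Real.rpow_add hM0 1 (-(2 * σ))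
    rw [Real.rpow_one] at h
    rw [← h]
    rfl
  have h0 : (0 : ℝ) ≤ M ^ (1 - 2 * σ) := (Real.rpow_pos_of_pos hM0 _).le
  rw [mul_assoc, e1]
  rcases le_total T M with hTM | hTM
  · have e2 : M * M ^ (1 - 2 * σ) = M ^ (2 - 2 * σ) := by
      have h := Real.rpow_add hM0 1 (1 - 2 * σ)
      rw [Real.rpow_one] at h
      rw [← h]
      ring_nf
    have e3 : (T ^ (39 / 34 : ℝ)) ^ (2 - 2 * σ) = T ^ (39 / 17 * (1 - σ)) := by
      rw [← Real.rpow_mul hT0.le]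
      ring_nf
    calc (T + M) * M ^ (1 - 2 * σ) ≤ (2 * M) * M ^ (1 - 2 * σ) :=
          mul_le_mul_of_nonneg_right (by linarith) h0
      _ = 2 * M ^ (2 - 2 * σ) := by rw [mul_assoc, e2]
      _ ≤ 2 * (T ^ (39 / 34 : ℝ)) ^ (2 - 2 * σ) :=
          mul_le_mul_of_nonneg_left (Real.rpow_le_rpow hM0.le hM2 (by linarith)) (by norm_num)
      _ = 2 * T ^ (39 / 17 * (1 - σ)) := by rw [e3]
  · have e3 : (T ^ (29 / 34 : ℝ)) ^ (1 - 2 * σ) = T ^ (29 / 34 * (1 - 2 * σ)) := by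
      rw [← Real.rpow_mul hT0.le]
    have e4 : T * T ^ (29 / 34 * (1 - 2 * σ)) = T ^ (1 + 29 / 34 * (1 - 2 * σ)) := by
      rw [Real.rpow_add hT0, Real.rpow_one]
    calc (T + M) * M ^ (1 - 2 * σ) ≤ (2 * T) * M ^ (1 - 2 * σ) :=
          mul_le_mul_of_nonneg_right (by linarith) h0
      _ ≤ (2 * T) * (T ^ (29 / 34 : ℝ)) ^ (1 - 2 * σ) :=
          mul_le_mul_of_nonneg_left (Real.rpow_le_rpow_of_nonpos
            (Real.rpow_pos_of_pos hT0 _) hM1 (by linarith)) (by linarith)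
      _ = 2 * T ^ (1 + 29 / 34 * (1 - 2 * σ)) := by rw [e3, mul_assoc, e4]
      _ ≤ 2 * T ^ (39 / 17 * (1 - σ)) :=
          mul_le_mul_of_nonneg_left (Real.rpow_le_rpow_of_exponent_le hT (by linarith))
            (by norm_num)

end Pool.Agent.ZD
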