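import Pool.Agent.helper84.ZD.SpecA

/-!
# Project zd: module QWF: the double sum in the `rho` form
-/

set_option autoImplicit false

open Complex MeasureTheory

namespace Pool.Agent.ZD

open Pool.Agent.helper84.DM Pool.Agent.helper78.ED Pool.Agent.DH

/-- the exponential `e^(ix)`. -/
noncomputable def QWF_E (x : ℝ) : ℂ := Complex.exp ((x : ℂ) * I)

theorem QWF_E_mul (x y : ℝ) : QWF_E x * QWF_E y = QWF_E (x + y) := by
  unfold QWF_E
  rw [← Complex.exp_add, Complex.ofReal_add, add_mul]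

theorem QWF_E_conj (x : ℝ) : (starRingEnd ℂ) (QWF_E x) = QWF_E (-x) := by
  unfold QWF_E
  rw [← Complex.exp_conj, map_mul, Complex.conj_ofReal, Complex.conj_I, Complex.ofReal_neg,
    mul_neg, neg_mul]

theorem QWF_sq {α : Type} (S : Finset α) (f : α → ℝ) :
    ((‖∑ a ∈ S, QWF_E (f a)‖ ^ 2 : ℝ) : ℂ) = ∑ a ∈ S, ∑ b ∈ S, QWF_E (f a - f b) := by
  rw [Complex.ofReal_pow, ← Complex.mul_conj', map_sum, Finset.sum_mul_sum]
  refine Finset.sum_congr rfl fun a _ => Finset.sum_congr rfl fun b _ => ?_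
  rw [QWF_E_conj, QWF_E_mul, sub_eq_add_neg]

theorem QWF_PL (S : Finset ℕ) (hS : 0 ∉ S) (u : ℝ) :
    PL S u = ∑ l ∈ S, QWF_E (-(u * Real.log l)) := by
  unfold PL QWF_E
  refine Finset.sum_congr rfl fun l hl => ?_
  have h0 : l ≠ 0 := fun h => hS (h ▸ hl)
  have h1 : (l : ℂ) ≠ 0 := Nat.cast_ne_zero.2 h0
  rw [Complex.cpow_def_of_ne_zero h1, ← Complex.natCast_log]
  congr 1
  push_cast
  ring

theorem QWF_rho (W : Finset ℝ) (x : ℝ) : rho W x = ∑ t ∈ W, QWF_E (t * x) := rfl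

theorem QWF : QWF_stmt := by
  intro W L
  have h0 : 0 ∉ IL L := by
    unfold IL
    rw [Finset.mem_Ioc]
    omega
  have hmain : QW W L = ∑ x ∈ IL L, ∑ y ∈ IL L, ‖rho W (Real.log x - Real.log y)‖ ^ 2 := by
    have h1 : ((QW W L : ℝ) : ℂ) =
        ((∑ x ∈ IL L, ∑ y ∈ IL L, ‖rho W (Real.log x - Real.log y)‖ ^ 2 : ℝ) : ℂ) := by
      unfold QW
      simp only [Complex.ofReal_sum, QWF_rho]
      have h2 : ∀ t t' : ℝ, ((‖PL (IL L) (t - t')‖ ^ 2 : ℝ) : ℂ) =
          ∑ x ∈ IL L, ∑ y ∈ IL L, QWF_E (t' * (Real.log x - Real.log y) -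
            t * (Real.log x - Real.log y)) := by
        intro t t'
        rw [QWF_PL _ h0, QWF_sq]
        refine Finset.sum_congr rfl fun x _ => Finset.sum_congr rfl fun y _ => ?_
        congr 1
        ring
      have h3 : ∀ x y : ℕ,
          ((‖∑ t ∈ W, QWF_E (t * (Real.log x - Real.log y))‖ ^ 2 : ℝ) : ℂ) =
          ∑ t ∈ W, ∑ t' ∈ W, QWF_E (t * (Real.log x - Real.log y) -
            t' * (Real.log x - Real.log y)) := fun x y => QWF_sq W _
      simp only [h2, h3]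
      rw [Finset.sum_comm]
      calc ∑ t' ∈ W, ∑ t ∈ W, ∑ x ∈ IL L, ∑ y ∈ IL L, QWF_E (t' * (Real.log x - Real.log y) -
            t * (Real.log x - Real.log y))
          = ∑ t' ∈ W, ∑ x ∈ IL L, ∑ t ∈ W, ∑ y ∈ IL L, QWF_E (t' * (Real.log x - Real.log y) -
            t * (Real.log x - Real.log y)) :=
            Finset.sum_congr rfl fun _ _ => Finset.sum_comm
        _ = ∑ x ∈ IL L, ∑ t' ∈ W, ∑ t ∈ W, ∑ y ∈ IL L, QWF_E (t' * (Real.log x - Real.log y) -
            t * (Real.log x - Real.log y)) := Finset.sum_comm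
        _ = ∑ x ∈ IL L, ∑ t' ∈ W, ∑ y ∈ IL L, ∑ t ∈ W, QWF_E (t' * (Real.log x - Real.log y) -
            t * (Real.log x - Real.log y)) :=
            Finset.sum_congr rfl fun _ _ => Finset.sum_congr rfl fun _ _ => Finset.sum_comm
        _ = ∑ x ∈ IL L, ∑ y ∈ IL L, ∑ t' ∈ W, ∑ t ∈ W, QWF_E (t' * (Real.log x - Real.log y) -
            t * (Real.log x - Real.log y)) := Finset.sum_congr rfl fun _ _ => Finset.sum_comm
    exact_mod_cast h1
  refine ⟨hmain, ?_⟩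
  rw [hmain]
  have h4 : rho W 0 = (W.card : ℂ) := by
    unfold rho
    simp
  have h5 : ∀ x ∈ IL L, (W.card : ℝ) ^ 2 ≤
      ∑ y ∈ IL L, ‖rho W (Real.log x - Real.log y)‖ ^ 2 := by
    intro x hx
    have h6 : ‖rho W (Real.log x - Real.log x)‖ ^ 2 ≤
        ∑ y ∈ IL L, ‖rho W (Real.log x - Real.log y)‖ ^ 2 :=
      Finset.single_le_sum (f := fun y : ℕ => ‖rho W (Real.log x - Real.log y)‖ ^ 2)
        (fun y _ => sq_nonneg _) hx
    rw [sub_self, h4, Complex.norm_natCast] at h6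
    exact h6
  calc (L : ℝ) * (W.card : ℝ) ^ 2 ≤ ((IL L).card : ℝ) * (W.card : ℝ) ^ 2 := by
        refine mul_le_mul_of_nonneg_right ?_ (sq_nonneg _)
        unfold IL
        rw [Nat.card_Ioc]
        have : L ≤ 8 * L - L := by omega
        exact_mod_cast this
    _ = ∑ x ∈ IL L, (W.card : ℝ) ^ 2 := by
        rw [Finset.sum_const, nsmul_eq_mul]
    _ ≤ ∑ x ∈ IL L, ∑ y ∈ IL L, ‖rho W (Real.log x - Real.log y)‖ ^ 2 :=
        Finset.sum_le_sum h5

end Pool.Agent.ZD
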